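import Mathlib
import Pool.Agent.helper2.Bis.Core
import Pool.Agent.helper40.Bis.Final
import Pool.Agent.helper71.Bis.B1

/-!
# Degree-constrained bisections: minimum degree `8k/3 + o(k)` suffices

There is a function `f k = 8k/3 + o(k)` such that every finite graph of minimum degree at least
`f k` has a bisection in which every vertex has at least `k` neighbours in its own part, and a
bisection in which every vertex has at least `k` neighbours in the other part.

Sketch of the proof.  Pass to an edge-minimal spanning subgraph of minimum degree `m` (then the
vertices of degree `> m` are independent).  Hubs: vertices of degree `≥ 216 m ^ 2`.  Give the hubs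
balanced random signs; few vertices see many more hubs of one sign.  A state assigns to every vertex
one of `1, -1, 0` (hubs: nonzero); a potential with a Huber type penalty `h (f v)` for the field `f v`
of the assigned vertices at an unassigned vertex `v`, a cost `(1/4 + c) d v` for an assigned vertex,
the energy of the assigned vertices and a cost for flipped hubs has a minimiser for which the
fractional solution `q v = s v / 2` or `-(1/4) h' (f v)` has small fields `|∑ q| ≤ (1/8 + c) d v`
(or a field of the right sign at an assigned vertex).  Randomised rounding with the local lemma and a
small correction set give the bisection.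
-/

set_option autoImplicit false

namespace Pool.Agent.Results.MP_1e54c0_co.EightThirds

/-- There is `f` with `(f k - (8/3) k) / k → 0` such that every finite graph of minimum degree at
least `f k` has a bisection with every vertex having at least `k` neighbours in its own part, and
another one with every vertex having at least `k` neighbours in the other part. -/
theorem result :
    ∃ f : ℕ → ℕ,
      Filter.Tendsto (fun k : ℕ => ((f k : ℝ) - 8 / 3 * (k : ℝ)) / (k : ℝ)) Filter.atTop (nhds 0) ∧
      ∀ (k : ℕ) (V : Type) [Fintype V] [DecidableEq V] (G : SimpleGraph V) [DecidableRel G.Adj],
        (∀ v : V, f k ≤ G.degree v) →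
        (∃ A : Finset V,
            |2 * (A.card : ℤ) - (Fintype.card V : ℤ)| ≤ 1 ∧
            ∀ v : V, k ≤ ((G.neighborFinset v).filter (fun w => (w ∈ A ↔ v ∈ A))).card) ∧
        (∃ A : Finset V,
            |2 * (A.card : ℤ) - (Fintype.card V : ℤ)| ≤ 1 ∧
            ∀ v : V, k ≤ ((G.neighborFinset v).filter (fun w => (w ∈ A ↔ v ∉ A))).card) :=
  Pool.Agent.helper40.Bis.final_of
    (fun R hs m h => Pool.Agent.helper71.Bis.edge_minimal R hs m h)
    Pool.Agent.helper2.Bis.core

end Pool.Agent.Results.MP_1e54c0_co.EightThirds
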