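import Mathlib
import Pool.Agent.helper14.LE.FinalH

/-!
# Exact bisections at minimum degree `2k + O(√(k L) + L)`, up to vertices of middle degree

At minimum degree `2k + C (√(k L) + L)`, `L ≥ max (1, log k)`, every finite graph on `n` vertices has
an exact bisection in which every vertex of degree at most `exp L` or at least `exp (-L) n`, every
vertex of a given set `X` such that each vertex has at most `√(k L) + L` neighbours in `X`, and all but
at most `exp (-L) n` vertices, have at least `k` neighbours in their own part, and an exact bisection
with the same property for the other part.

Sketch of the proof.  Pass to an edge-minimal spanning subgraph of minimum degree `m` (then the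
vertices of degree `> m` are independent) and put `c = (m - 2k) / (8m)`, `D = exp (c ^ 2 m / 8)`,
`r = √(k L) + L`.  Hubs: vertices of degree `> D` in the subgraph; each of their neighbours has degree
`m`, and there are at most `(m / D) n` hubs.  Give the hubs balanced random signs; the number `W` of
vertices that see a sum of hub signs larger than `c m` is at most `4 exp (- c ^ 2 m / 2) n`.  A
screening lemma (a topological argument with a sum bound) gives a fractional solution `q`,
`|q| ≤ 1/2`, with `∑ |q v| ≤ W / (4 c)`, such that every vertex with `|q v| < 1/2` has a field of
absolute value at most `(1/2 - c) d v - k - r` and every vertex with `|q v| = 1/2` has a field that is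
at least minus this number in its own direction.  Small values of `q` are replaced by `0`.  Hubs with
at least `exp (-L) n` neighbours in the whole graph get private sets of `2 m` neighbours with `q = 0`,
the other hubs with at least `2 m` neighbours with `q = 0` in the subgraph get a set of such
neighbours.  The few remaining hubs in `X` take a new sign, chosen according to their neighbours; this
changes each field by at most `r`.  Randomised rounding with the local lemma (bad events for the low
vertices and for the sets of the hubs; dependency degree at most `2 D (2 D + 1)`), with the vertices
with `q = 0` rounded in pairs, and a correction set of few vertices of pairwise distance `> 2` give an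
exact bisection.
-/

set_option autoImplicit false

namespace Pool.Agent.Results.MP_1e54c0_co.ExactBisections

open Finset in
/-- There is `C` such that for all `k : ℕ` and real `L ≥ 1` with `k ≤ exp L`, every finite graph of
minimum degree at least `2 k + C (√(k L) + L)` and every set `X` of vertices such that each vertex has
at most `√(k L) + L` neighbours in `X`, there is an exact bisection in which every vertex of `X` and
every vertex of degree at most `exp L` or at least `exp (-L) |V|` has at least `k` neighbours in its
own part and at most `exp (-L) |V|` vertices have fewer than `k`, and an exact bisection with the same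
property for the other part. -/
theorem result :
    ∃ C : ℝ, ∀ (k : ℕ) (L : ℝ), 1 ≤ L → (k : ℝ) ≤ Real.exp L →
      ∀ (V : Type) [Fintype V] [DecidableEq V] (G : SimpleGraph V) [DecidableRel G.Adj],
        (∀ v : V, 2 * (k : ℝ) + C * (√(k * L) + L) ≤ (G.degree v : ℝ)) →
        ∀ X : Finset V, (∀ v : V, ((G.neighborFinset v ∩ X).card : ℝ) ≤ √(k * L) + L) →
        (∃ A : Finset V,
            |2 * (A.card : ℤ) - (Fintype.card V : ℤ)| ≤ 1 ∧
            (∀ v : V, ((G.degree v : ℝ) ≤ Real.exp L ∨
                Real.exp (-L) * Fintype.card V ≤ (G.degree v : ℝ) ∨ v ∈ X) →
              k ≤ ((G.neighborFinset v).filter (fun w => (w ∈ A ↔ v ∈ A))).card) ∧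
            ((univ.filter (fun v : V =>
              ((G.neighborFinset v).filter (fun w => (w ∈ A ↔ v ∈ A))).card < k)).card : ℝ) ≤
              Real.exp (-L) * Fintype.card V) ∧
        (∃ A : Finset V,
            |2 * (A.card : ℤ) - (Fintype.card V : ℤ)| ≤ 1 ∧
            (∀ v : V, ((G.degree v : ℝ) ≤ Real.exp L ∨
                Real.exp (-L) * Fintype.card V ≤ (G.degree v : ℝ) ∨ v ∈ X) →
              k ≤ ((G.neighborFinset v).filter (fun w => (w ∈ A ↔ v ∉ A))).card) ∧
            ((univ.filter (fun v : V =>
              ((G.neighborFinset v).filter (fun w => (w ∈ A ↔ v ∉ A))).card < k)).card : ℝ) ≤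
              Real.exp (-L) * Fintype.card V) :=
  ⟨32769, fun k L hL hk V _ _ G _ hG X hX =>
    Pool.Agent.helper14.LE.middleGood k L hL hk V G hG X hX⟩

end Pool.Agent.Results.MP_1e54c0_co.ExactBisections
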