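import Mathlib
import Pool.Agent.helper14.LE.FinalN

/-!
# Exact bisections, good at all vertices, unless percolation in the low part is large

Let `G` be a graph with `n` vertices and minimum degree at least `m ≥ 2k + C (√(k L) + L)`,
`m ≤ exp L`, and let `R` be a spanning subgraph of `G` with all degrees at least `m` in which every
edge has an end of degree exactly `m` (delete edges of `G` as long as all degrees stay at least `m`).
Put `s = (m - 2k) / 64`.  Vertices of `R`-degree at most `exp (5 L)` are called low.  Let `ω` be a
scale, `exp (-100 L) ≤ ω ≤ (m - 2k) / (4096 m)`; the vertices whose `R`-degree is larger than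
`exp (5 L)` and whose `G`-degree is smaller than `max (exp (-L)) (4 ω) n` are called middle.  If every
set `Z` of at most `exp (-2 L) ω n` low vertices, each with more than `s` middle `R`-neighbours, lies
in a set `W` with at most `ω n` vertices such that every low vertex outside `W` has fewer than `s`
`R`-neighbours in `W` (in other words: `s`-neighbour bootstrap percolation in the low part, started at
at most `exp (-2 L) ω n` vertices that are tied to more than `s` middle vertices, stays below `ω n`),
then `G` has an exact bisection in which every vertex has at least `k` neighbours in its own part, and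
one in which every vertex has at least `k` neighbours in the other part.

Sketch of the proof.  Balanced random signs for the hubs (`R`-degree `> D = exp (5 L)`) and a screening
lemma give a fractional solution of tiny total mass that is good at all low vertices.  Cascade: as
long as a middle hub has less than `N₀` neighbours that are not against it, it changes its sign, and
as long as a low vertex sees a field beyond a slightly larger tolerance in the wrong direction it moves
to `1` or `-1`; the energy increases, so this stops.  A low vertex `v` that moves has at least `2 s`
earlier moved neighbours or changed hubs for which it was in the minority (`h v` of them).  Order the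
moved vertices by their first move and let `Z` be the set of those with `h v > s`; the first moved
vertex outside the closed set `W ⊇ Z` would have at least `s` neighbours in `W`, so all moved vertices
lie in `W`, and then the number of changed hubs is at most `4 m ω n / D`, so that
`|Z| ≤ exp (-2 L) ω n` stays true.  The sum of the fixed signs, at most `3 ω n`, is compensated by a
spread set of neutral low vertices (repeated halving with the local lemma); rounding with the local
lemma, served hubs, private neighbours of the giants and an exact correction as in `ExactBisections`.
-/

set_option autoImplicit false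

namespace Pool.Agent.Results.MP_1e54c0_co.LowPartPercolation

/-- There is `C` such that for all `k m : ℕ` and real `L ≥ 1`, `ω` with
`2 k + C (√(k L) + L) ≤ m ≤ exp L` and `exp (-100 L) ≤ ω ≤ (m - 2 k) / (4096 m)`, every finite graph
`G` and spanning subgraph `R` of `G` with all `R`-degrees at least `m` in which every edge has an end
of `R`-degree exactly `m`: if every set `Z` with `|Z| ≤ exp (-2 L) ω |V|` of vertices of `R`-degree at
most `exp (5 L)`, each with more than `(m - 2 k) / 64` `R`-neighbours of `R`-degree larger than
`exp (5 L)` and `G`-degree smaller than `max (exp (-L)) (4 ω) |V|`, is contained in a set `W` with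
`|W| ≤ ω |V|` such that every vertex outside `W` of `R`-degree at most `exp (5 L)` has fewer than
`(m - 2 k) / 64` `R`-neighbours in `W`, then `G` has an exact bisection in which every vertex has at
least `k` neighbours in its own part, and one in which every vertex has at least `k` neighbours in the
other part. -/
theorem result :
    ∃ C : ℝ, ∀ (k m : ℕ) (L ω : ℝ), 1 ≤ L → 2 * (k : ℝ) + C * (√(k * L) + L) ≤ m →
      (m : ℝ) ≤ Real.exp L → Real.exp (-(100 * L)) ≤ ω → ω ≤ ((m : ℝ) - 2 * k) / (4096 * m) →
      ∀ (V : Type) [Fintype V] [DecidableEq V] (G R : SimpleGraph V) [DecidableRel G.Adj]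
        [DecidableRel R.Adj], R ≤ G → (∀ v : V, m ≤ R.degree v) →
        (∀ u v : V, R.Adj u v → R.degree u = m ∨ R.degree v = m) →
        (∀ Z : Finset V, (∀ v ∈ Z, (R.degree v : ℝ) ≤ Real.exp (5 * L) ∧
            ((m : ℝ) - 2 * k) / 64 < (Set.ncard {w : V | R.Adj v w ∧
              Real.exp (5 * L) < (R.degree w : ℝ) ∧
              (G.degree w : ℝ) < max (Real.exp (-L)) (4 * ω) * Fintype.card V} : ℝ)) →
          (Z.card : ℝ) ≤ Real.exp (-(2 * L)) * ω * Fintype.card V →
          ∃ W : Finset V, Z ⊆ W ∧ (W.card : ℝ) ≤ ω * Fintype.card V ∧
            ∀ v : V, v ∉ W → (R.degree v : ℝ) ≤ Real.exp (5 * L) →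
              ((R.neighborFinset v ∩ W).card : ℝ) < ((m : ℝ) - 2 * k) / 64) →
        (∃ A : Finset V,
            |2 * (A.card : ℤ) - (Fintype.card V : ℤ)| ≤ 1 ∧
            ∀ v : V, k ≤ ((G.neighborFinset v).filter (fun w => (w ∈ A ↔ v ∈ A))).card) ∧
        (∃ A : Finset V,
            |2 * (A.card : ℤ) - (Fintype.card V : ℤ)| ≤ 1 ∧
            ∀ v : V, k ≤ ((G.neighborFinset v).filter (fun w => (w ∈ A ↔ v ∉ A))).card) :=
  ⟨1048576, fun k m L ω hL hm hmL hω1 hω2 V _ _ G R _ _ hRG hR hmin hull =>
    Pool.Agent.helper14.LE.classGoodN k m L ω hL hm hmL hω1 hω2 V G R hRG hR hmin hull⟩

end Pool.Agent.Results.MP_1e54c0_co.LowPartPercolation
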