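import Mathlib
import Pool.Agent.helper77.NO.FinalP

/-!
# Near-balanced degree-constrained partitions: exact balance or strong polarization

Let `G` be a graph with `n` vertices and `R` a spanning subgraph with all degrees at least `m` in which
every edge has an end of degree exactly `m` (every graph of minimum degree at least `m` has one), let
`s = m - 2k ≥ C` and let `r` weight functions `w i : V → [-1, 1]` be given.  Then there is a partition
`A`, `V - A` in which every vertex has at least `k` neighbours in its own part, such that all weights
and the sizes of the parts are balanced up to `C (r + 1) (m n / s ^ 2 + s)`; if moreover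
`C (r + 1) m ^ 2 ≤ s ^ 3` and `m ^ 3 ≤ n`, then the partition is an exact bisection, or `A` is the
larger part, all but `C (r + 1) (m ^ 2 / s ^ 3) n` vertices `v` of `A` have more than
`deg_R v / 2 + 7 s / 16` `R`-neighbours in `A`, and less than a fraction `1 / 2 - s / (16 m)` of the
edges of `R` go across.  The same for neighbours in the other part, with `R`-neighbours in `V - A` and
more than a fraction `1 / 2 + s / (16 m)` of the edges across.  So an exact `k`-good bisection exists
unless `R` has a strongly polarized near-bisection, also with balanced weights.

Idea of the proof.  In the cube of sign vectors the full subcomplexes on symmetric sets have a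
(homological, mod 2) index.  The minimax values of the energy minus `l` times the imbalance over the
sets of index `≥ j` drop by a bounded total amount, so for some `j` and `l` there is a critical vertex
of the `j`-th minimax problem that is nearly balanced; there every vertex, also every hub, has almost
half of its neighbours on the right side.  If there are enough vertices of the majority sign that have
more than `k` neighbours on both sides, a spread set of them (repeated halving with the local lemma,
with respect to the neighbourhoods of the low vertices and to sets of good neighbours of the hubs) is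
flipped, and the balance becomes exact.  Otherwise nearly all vertices of the larger part are
polarized, and the count of the edges across follows.
-/

set_option autoImplicit false

namespace Pool.Agent.Results.MP_1e54c0_co.NearOrExact

open Finset in
/-- There is `C` such that for all `k m r : ℕ` with `s = m - 2 k ≥ C`, all finite graphs `G` and
spanning subgraphs `R` with all degrees at least `m` in which every edge has an end of degree exactly
`m`, and all `r` weight functions with values in `[-1, 1]`: there is a near-balanced partition with
balanced weights and at least `k` neighbours of every vertex in its own part, which is exactly balanced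
or polarized if `C (r + 1) m ^ 2 ≤ s ^ 3` and `m ^ 3 ≤ |V|`; and one with at least `k` neighbours of
every vertex in the other part. -/
theorem result :
    ∃ C : ℕ, ∀ (k m r : ℕ) (V : Type) [Fintype V] [DecidableEq V] (G R : SimpleGraph V)
      [DecidableRel G.Adj] [DecidableRel R.Adj] (w : Fin r → V → ℝ) (s : ℝ),
      s = (m : ℝ) - 2 * k → (C : ℝ) ≤ s → R ≤ G → (∀ v, m ≤ R.degree v) →
      (∀ u v, R.Adj u v → R.degree u = m ∨ R.degree v = m) → (∀ i v, |w i v| ≤ 1) →
      (∃ A : Finset V,
        (∀ v, k ≤ ((G.neighborFinset v).filter (fun u => (u ∈ A ↔ v ∈ A))).card) ∧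
        (∀ i, |∑ v ∈ A, w i v - ∑ v ∈ Aᶜ, w i v| ≤
          C * (r + 1) * (m * (Fintype.card V : ℝ) / s ^ 2 + s)) ∧
        |2 * (A.card : ℝ) - Fintype.card V| ≤
          C * (r + 1) * (m * (Fintype.card V : ℝ) / s ^ 2 + s) ∧
        ((C : ℝ) * (r + 1) * m ^ 2 ≤ s ^ 3 → m ^ 3 ≤ Fintype.card V →
          |2 * (A.card : ℝ) - Fintype.card V| ≤ 1 ∨
          ((Fintype.card V : ℝ) ≤ 2 * A.card ∧
            ((A.filter (fun v => ((R.neighborFinset v ∩ A).card : ℝ) ≤
              (R.degree v : ℝ) / 2 + 7 * s / 16)).card : ℝ) ≤
              C * (r + 1) * m ^ 2 / s ^ 3 * Fintype.card V ∧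
            ∑ v ∈ A, ((R.neighborFinset v \ A).card : ℝ) <
              (1 / 2 - s / (16 * m)) * R.edgeFinset.card))) ∧
      (∃ A : Finset V,
        (∀ v, k ≤ ((G.neighborFinset v).filter (fun u => (u ∈ A ↔ v ∉ A))).card) ∧
        (∀ i, |∑ v ∈ A, w i v - ∑ v ∈ Aᶜ, w i v| ≤
          C * (r + 1) * (m * (Fintype.card V : ℝ) / s ^ 2 + s)) ∧
        |2 * (A.card : ℝ) - Fintype.card V| ≤
          C * (r + 1) * (m * (Fintype.card V : ℝ) / s ^ 2 + s) ∧
        ((C : ℝ) * (r + 1) * m ^ 2 ≤ s ^ 3 → m ^ 3 ≤ Fintype.card V →
          |2 * (A.card : ℝ) - Fintype.card V| ≤ 1 ∨
          ((Fintype.card V : ℝ) ≤ 2 * A.card ∧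
            ((A.filter (fun v => ((R.neighborFinset v \ A).card : ℝ) ≤
              (R.degree v : ℝ) / 2 + 7 * s / 16)).card : ℝ) ≤
              C * (r + 1) * m ^ 2 / s ^ 3 * Fintype.card V ∧
            (1 / 2 + s / (16 * m)) * R.edgeFinset.card <
              ∑ v ∈ A, ((R.neighborFinset v \ A).card : ℝ)))) :=
  Pool.Agent.helper77.NO.final

end Pool.Agent.Results.MP_1e54c0_co.NearOrExact
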